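import Mathlib
import Pool.Agent.H379R3.CDQ.Stmts

set_option autoImplicit false

namespace H227CDQ

open Pool.Agent.H379R3.CDQ

lemma qf_map {R S : Type} [CommRing R] [CommRing S] (φ : R →+* S) (a b : R) (v : Fin 6 → R) :
    φ (qf a b v) = qf (φ a) (φ b) (fun i => φ (v i)) := by
  simp [qf]

/-- anisotropy over a subset -/
def AS {L : Type} [Field L] (a b : L) (S : Set L) : Prop :=
  ∀ v : Fin 6 → L, (∀ i, v i ∈ S) → qf a b v = 0 → v = 0

lemma anis_iff {F L : Type} [Field F] [Field L] (φ : F →+* L) (a b : F) :
    Anis F a b ↔ AS (φ a) (φ b) (Set.range φ) := by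
  constructor
  · intro h v hv hq
    choose u hu using hv
    have hv' : v = fun i => φ (u i) := by funext i; rw [hu]
    rw [hv', ← qf_map] at hq
    have h0 : qf a b u = 0 := by
      apply φ.injective
      rw [hq, map_zero]
    have := h u h0
    rw [hv', this]
    funext i
    simp
  · intro h v hq
    have h1 := h (fun i => φ (v i)) (fun i => ⟨v i, rfl⟩) (by rw [← qf_map, hq, map_zero])
    funext i
    have h2 := congrFun h1 i
    simp only [Pi.zero_apply] at h2 ⊢
    exact φ.injective (by rw [h2, map_zero])

theorem taskMax : TaskMax := by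
  intro hspr K _ _ a b hK
  let L := SeparableClosure K
  let S : Set (IntermediateField K L) :=
    {F | AS (algebraMap K L a) (algebraMap K L b) (F : Set L)}
  have hbot : (⊥ : IntermediateField K L) ∈ S := by
    have h := (anis_iff (algebraMap K L) a b).1 hK
    intro v hv
    apply h v
    intro i
    exact IntermediateField.mem_bot.1 (hv i)
  obtain ⟨F, -, hF⟩ := zorn_le_nonempty₀ S (by
    intro c hc hch y hy
    refine ⟨sSup c, ?_, fun z hz => le_sSup hz⟩
    intro v hv
    have : Nonempty c := ⟨⟨y, hy⟩⟩
    have hdir : Directed (· ≤ ·) (fun F : c => (F : IntermediateField K L)) := hch.directed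
    have hmem : ∀ i, ∃ F : c, v i ∈ (F : IntermediateField K L) := by
      intro i
      have h1 : v i ∈ ((⨆ F : c, (F : IntermediateField K L)) : IntermediateField K L) := by
        have := hv i
        rw [sSup_eq_iSup'] at this
        exact this
      have h2 := IntermediateField.coe_iSup_of_directed hdir
      have h3 : v i ∈ ⋃ F : c, ((F : IntermediateField K L) : Set L) := by
        rw [← h2]; exact h1
      simpa using h3
    choose g hg using hmem
    obtain ⟨M, hM⟩ := hdir.finite_le g
    exact hc M.2 v (fun i => hM i (hg i))) ⊥ hbot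
  have hFS : F ∈ S := hF.prop
  refine ⟨F, inferInstance, ?_, algebraMap K F a, algebraMap K F b, ?_, ?_⟩
  · exact charP_of_injective_algebraMap (algebraMap K F).injective 2
  · rw [anis_iff (algebraMap F L)]
    intro v hv
    apply hFS v
    intro i
    obtain ⟨x, hx⟩ := hv i
    rw [← hx]
    exact x.2
  · intro E _ _ _ _ hodd
    have hAF : Anis F (algebraMap K F a) (algebraMap K F b) := by
      rw [anis_iff (algebraMap F L)]
      intro v hv
      apply hFS v
      intro i
      obtain ⟨x, hx⟩ := hv i
      rw [← hx]
      exact x.2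
    have hAE := hspr F _ _ hAF E hodd
    let φ : E →ₐ[F] L := IsSepClosed.lift
    have hAE' := (anis_iff φ.toRingHom _ _).1 hAE
    let F' : IntermediateField K L := φ.fieldRange.restrictScalars K
    have hle : F ≤ F' := by
      intro x hx
      have : (algebraMap F L ⟨x, hx⟩) ∈ φ.fieldRange := φ.fieldRange.algebraMap_mem _
      exact this
    have hF' : F' ∈ S := by
      intro v hv hq
      apply hAE' v
      · intro i
        have := hv i
        exact this
      · have h1 : φ.toRingHom (algebraMap F E (algebraMap K F a)) = algebraMap K L a :=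
          φ.commutes _
        have h2 : φ.toRingHom (algebraMap F E (algebraMap K F b)) = algebraMap K L b :=
          φ.commutes _
        rw [h1, h2]
        exact hq
    have hge : F' ≤ F := hF.le_of_ge hF' hle
    have hb : (⊥ : IntermediateField F E) = ⊤ := by
      rw [eq_top_iff]
      intro x _
      have hx : φ x ∈ F := hge (show φ x ∈ φ.fieldRange from ⟨x, rfl⟩)
      refine IntermediateField.mem_bot.2 ⟨⟨φ x, hx⟩, ?_⟩
      apply φ.toRingHom.injective
      exact φ.commutes (⟨φ x, hx⟩ : F)
    exact IntermediateField.bot_eq_top_iff_finrank_eq_one.1 hb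

end H227CDQ
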